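import Pool.Agent.H19.MoeckelB.Coord

/-!
# Calculus: no local minimum; the moment of inertia and the potential under scaling
-/

open Complex Filter Topology

set_option autoImplicit false

namespace Pool.Agent.H19.MoeckelB

open Pool.Agent.H19.Moeckel

theorem no_min (g g1 : ℝ → ℝ) (g2 a b : ℝ) (hg : ∀ᶠ s in 𝓝 (0 : ℝ), HasDerivAt g (g1 s) s)
    (hg1 : HasDerivAt g1 g2 0) (h10 : g1 0 = 0) (hpos : 0 < g 0)
    (hneg : g2 * a + g 0 * b < 0) : ¬ IsLocalMin (fun s => g s ^ 2 * (a + s ^ 2 * b)) 0 := by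
  intro hmin
  set G : ℝ → ℝ := fun s => g s ^ 2 * (a + s ^ 2 * b) with hG
  set G1 : ℝ → ℝ := fun s => 2 * g s * g1 s * (a + s ^ 2 * b) + g s ^ 2 * (2 * s * b) with hG1
  have hp : ∀ s : ℝ, HasDerivAt (fun s : ℝ => a + s ^ 2 * b) (2 * s * b) s := by
    intro s
    have := (((hasDerivAt_id s).pow 2).mul_const b).const_add a
    refine this.congr_deriv ?_
    simp
  have hd : ∀ᶠ s in 𝓝 (0 : ℝ), HasDerivAt G (G1 s) s := by
    filter_upwards [hg] with s hs
    have := (hs.pow 2).mul (hp s)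
    refine this.congr_deriv ?_
    simp [hG1]
  have hg0 : HasDerivAt g (g1 0) 0 := hg.self_of_nhds
  have hd2 : HasDerivAt G1 (2 * g 0 * (g2 * a + g 0 * b)) 0 := by
    have h1 : HasDerivAt (fun s : ℝ => 2 * s * b) (2 * b) 0 := by
      have := ((hasDerivAt_id (0 : ℝ)).const_mul 2).mul_const b
      refine this.congr_deriv ?_
      simp
    have := (((hg0.const_mul 2).mul hg1).mul (hp 0)).add ((hg0.pow 2).mul h1)
    refine this.congr_deriv ?_
    simp [h10]
    ring
  have hval : 2 * g 0 * (g2 * a + g 0 * b) < 0 := mul_neg_of_pos_of_neg (by positivity) hneg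
  have hev : deriv G =ᶠ[𝓝 0] G1 := by
    filter_upwards [hd] with s hs using hs.deriv
  have hdd : deriv (deriv G) 0 = 2 * g 0 * (g2 * a + g 0 * b) := by
    rw [hev.deriv_eq, hd2.deriv]
  have hmax : IsLocalMin (fun s => - G s) 0 := by
    have h1 : deriv (fun s => - G s) = fun s => - deriv G s := by
      funext s
      exact deriv.fun_neg
    apply isLocalMin_of_deriv_deriv_pos
    · rw [h1]
      rw [deriv.fun_neg, hdd]
      linarith
    · rw [h1]
      simp only
      rw [hev.self_of_nhds]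
      simp [hG1, h10]
    · exact hd.self_of_nhds.continuousAt.neg
  have hconst : G =ᶠ[𝓝 0] fun _ => G 0 := by
    have h1 : ∀ᶠ s in 𝓝 (0 : ℝ), G 0 ≤ G s := hmin
    have h2 : ∀ᶠ s in 𝓝 (0 : ℝ), - G 0 ≤ - G s := hmax
    filter_upwards [h1, h2] with s h3 h4
    linarith
  have h3 : deriv G =ᶠ[𝓝 0] fun _ => 0 := by
    have := hconst.deriv
    simpa using this
  have h4 : deriv (deriv G) 0 = 0 := by
    rw [h3.deriv_eq]
    simp
  rw [hdd] at h4
  linarith

theorem lagr {n : ℕ} (m a : Fin n → ℝ) (h : ∑ i, m i * a i = 0) :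
    ∑ i, ∑ j, m i * m j * (a i - a j) ^ 2 = 2 * (∑ i, m i) * ∑ i, m i * a i ^ 2 := by
  have e : ∀ i j, m i * m j * (a i - a j) ^ 2
      = (m i * a i ^ 2) * m j + m i * (m j * a j ^ 2) - 2 * ((m i * a i) * (m j * a j)) := by
    intro i j; ring
  simp only [e, Finset.sum_sub_distrib, Finset.sum_add_distrib, ← Finset.mul_sum, ← Finset.sum_mul,
    h]
  ring

/-- the moment of inertia is the sum of `m |q|²` when the centre of mass is at the origin -/
theorem inertia_eq {n : ℕ} (m : Fin n → ℝ) (hM : ∑ i, m i ≠ 0) (q : Fin n → ℂ)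
    (h : ∑ i, (m i : ℂ) * q i = 0) : inertia m q = ∑ i, m i * ((q i).re ^ 2 + (q i).im ^ 2) := by
  have h1 : ∑ i, m i * (q i).re = 0 := by
    have := congrArg Complex.re h
    simpa using this
  have h2 : ∑ i, m i * (q i).im = 0 := by
    have := congrArg Complex.im h
    simpa using this
  unfold inertia
  rw [sum_lt_symm (fun i j => m i * m j * ‖q i - q j‖ ^ 2)]
  · have e : ∑ i, ∑ j, m i * m j * ‖q i - q j‖ ^ 2
        = ∑ i, ∑ j, m i * m j * ((q i).re - (q j).re) ^ 2
          + ∑ i, ∑ j, m i * m j * ((q i).im - (q j).im) ^ 2 := by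
      rw [← Finset.sum_add_distrib]
      apply Finset.sum_congr rfl
      intro i _
      rw [← Finset.sum_add_distrib]
      apply Finset.sum_congr rfl
      intro j _
      rw [← Complex.normSq_eq_norm_sq, Complex.normSq_apply]
      simp
      ring
    rw [e, lagr m _ h1, lagr m _ h2]
    simp only [mul_add, Finset.sum_add_distrib]
    field_simp
  · intro i j
    rw [norm_sub_rev]
    ring
  · intro i
    simp

theorem inertia_smul {n : ℕ} (m : Fin n → ℝ) (c : ℝ) (q : Fin n → ℂ) :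
    inertia m (fun i => (c : ℂ) * q i) = c ^ 2 * inertia m q := by
  unfold inertia
  have e : ∀ i j : Fin n, (if i < j then m i * m j * ‖(c : ℂ) * q i - (c : ℂ) * q j‖ ^ 2 else 0)
      = c ^ 2 * (if i < j then m i * m j * ‖q i - q j‖ ^ 2 else 0) := by
    intro i j
    rw [← mul_sub, norm_mul, Complex.norm_real, mul_pow, Real.norm_eq_abs, sq_abs]
    split_ifs <;> ring
  simp only [e, ← Finset.mul_sum]
  ring

theorem pot_smul {n : ℕ} (m : Fin n → ℝ) (c : ℝ) (hc : 0 < c) (q : Fin n → ℂ) :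
    pot m (fun i => (c : ℂ) * q i) = c⁻¹ * pot m q := by
  unfold pot
  have e : ∀ i j : Fin n, (if i < j then m i * m j / ‖(c : ℂ) * q i - (c : ℂ) * q j‖ else 0)
      = c⁻¹ * (if i < j then m i * m j / ‖q i - q j‖ else 0) := by
    intro i j
    rw [← mul_sub, norm_mul, Complex.norm_real, Real.norm_of_nonneg hc.le]
    split_ifs
    · rw [div_mul_eq_div_div, div_eq_mul_inv (m i * m j) c]
      ring
    · ring
  simp only [e, ← Finset.mul_sum]

end Pool.Agent.H19.MoeckelB
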