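import Pool.Agent.H19.MoeckelB.Defs
import Pool.Agent.H19.Moeckel.Bound
import Pool.Agent.H19.Moeckel.Hess

/-!
# The nine body configuration in complex coordinates
-/

open Complex

set_option autoImplicit false

namespace Pool.Agent.H19.MoeckelB

open Pool.Agent.H19.Moeckel

/-- complex coordinates -/
noncomputable def toC (v : Fin 9 × Fin 2 → ℝ) (i : Fin 9) : ℂ := ⟨v (i, 0), v (i, 1)⟩

/-- real coordinates -/
noncomputable def toR (z : Fin 9 → ℂ) (p : Fin 9 × Fin 2) : ℝ := if p.2 = 0 then (z p.1).re else (z p.1).im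

/-- the configuration -/
noncomputable def x9 : Fin 9 → ℂ := toC xx

theorem toR_toC (v : Fin 9 × Fin 2 → ℝ) : toR (toC v) = v := by
  funext ⟨i, k⟩
  fin_cases k <;> simp [toR, toC]

theorem toC_toR (z : Fin 9 → ℂ) : toC (toR z) = z := by
  funext i
  apply Complex.ext <;> simp [toR, toC]

@[simp] theorem toR_zero (z : Fin 9 → ℂ) (i : Fin 9) : toR z (i, 0) = (z i).re := by simp [toR]
@[simp] theorem toR_one (z : Fin 9 → ℂ) (i : Fin 9) : toR z (i, 1) = (z i).im := by simp [toR]

theorem norm_sub_eq (z : Fin 9 → ℂ) (i j : Fin 9) : ‖z i - z j‖ = dist2 (toR z) i j := by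
  rw [Complex.norm_def, Complex.normSq_apply]
  unfold dist2
  congr 1
  simp
  ring

theorem inj_of (z : Fin 9 → ℂ)
    (h : ∀ i j : Fin 9, i < j → 0 < (toR z (i, 0) - toR z (j, 0)) ^ 2 + (toR z (i, 1) - toR z (j, 1)) ^ 2) :
    Function.Injective z := by
  intro i j hij
  by_contra hne
  rcases lt_or_gt_of_ne hne with h1 | h1
  · have := h i j h1; simp [hij] at this
  · have := h j i h1; simp [hij] at this

theorem x9_free : ∀ i j : Fin 9, i < j → 0 < (xx (i, 0) - xx (j, 0)) ^ 2 + (xx (i, 1) - xx (j, 1)) ^ 2 :=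
  fun i j hij => sq_pos_of_ne i j hij.ne

theorem x9_inj : Function.Injective x9 := by
  apply inj_of
  intro i j hij
  rw [x9, toR_toC]
  exact x9_free i j hij

theorem x9_com : ∑ i, (m9 i : ℂ) * x9 i = 0 := by
  apply Complex.ext
  · have := xx_com 0
    simpa [x9, toC] using this
  · have := xx_com 1
    simpa [x9, toC] using this

/-- `x` is a central configuration -/
theorem grav_x9 (i : Fin 9) : grav m9 x9 i = - x9 i := by
  have key : ∀ k : Fin 2, ∑ j ∈ Finset.univ.erase i, m9 j / ‖x9 j - x9 i‖ ^ 3 * (xx (j, k) - xx (i, k))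
      = - xx (i, k) := by
    intro k
    have h := grad_eq i k
    have hm := (m9_pos i).ne'
    have e : ∑ j, m9 i * m9 j * (-((dist2 xx i j) ^ 3)⁻¹ * (xx (i, k) - xx (j, k)))
        = m9 i * ∑ j ∈ Finset.univ.erase i, m9 j / ‖x9 j - x9 i‖ ^ 3 * (xx (j, k) - xx (i, k)) := by
      rw [Finset.mul_sum, ← Finset.sum_erase_add _ _ (Finset.mem_univ i)]
      simp only [sub_self, mul_zero, add_zero]
      apply Finset.sum_congr rfl
      intro j _
      rw [norm_sub_eq, x9, toR_toC, dist2_comm xx j i]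
      ring
    rw [e] at h
    have h2 : m9 i * ∑ j ∈ Finset.univ.erase i, m9 j / ‖x9 j - x9 i‖ ^ 3 * (xx (j, k) - xx (i, k))
        = m9 i * (- xx (i, k)) := by linarith
    exact mul_left_cancel₀ hm h2
  unfold grav
  apply Complex.ext
  · rw [Complex.re_sum]
    simp only [Complex.re_ofReal_mul, Complex.neg_re]
    exact key 0
  · rw [Complex.im_sum]
    simp only [Complex.im_ofReal_mul, Complex.neg_im]
    exact key 1

theorem grav_rot {n : ℕ} (m : Fin n → ℝ) (x : Fin n → ℂ) (u : ℂ) (hu : ‖u‖ = 1) (i : Fin n) :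
    grav m (fun k => u * x k) i = u * grav m x i := by
  unfold grav
  rw [Finset.mul_sum]
  apply Finset.sum_congr rfl
  intro j _
  rw [← mul_sub, norm_mul, hu, one_mul]
  ring

theorem relEq9 : IsRelEq m9 x9 1 := by
  refine ⟨one_ne_zero, x9_com, ?_, fun t i => I * exp (I * (1 : ℝ) * t) * x9 i, fun t i => ?_⟩
  · intro t i j hij
    exact x9_inj (mul_left_cancel₀ (exp_ne_zero _) hij)
  · have h1 : ∀ t : ℝ, HasDerivAt (fun s : ℝ => exp (I * (1 : ℝ) * s)) (I * exp (I * (1 : ℝ) * t)) t := by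
      intro t
      have h2 : HasDerivAt (fun s : ℝ => I * (1 : ℝ) * (s : ℂ)) (I * (1 : ℝ) * 1) t :=
        (Complex.ofRealCLM.hasDerivAt (x := t)).const_mul (I * ((1 : ℝ) : ℂ))
      refine h2.cexp.congr_deriv ?_
      push_cast
      ring
    refine ⟨(h1 t).mul_const (x9 i), ?_⟩
    have h3 := ((h1 t).const_mul I).mul_const (x9 i)
    refine h3.congr_deriv ?_
    rw [grav_rot, grav_x9]
    · have : I * (I * exp (I * (1 : ℝ) * t)) = - exp (I * (1 : ℝ) * t) := by
        rw [← mul_assoc, I_mul_I]; ring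
      rw [this]; ring
    · rw [Complex.norm_exp]
      simp

end Pool.Agent.H19.MoeckelB
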