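import Mathlib

/-!
# The planar `n`-body problem: relative equilibria and their linear stability

The plane is `ℂ`; a configuration of `n` bodies is a function `q : Fin n → ℂ`.
-/

open Complex

namespace Pool.Agent.H19.MoeckelB

variable {n : ℕ}

/-- The Newtonian acceleration of body `i` in the configuration `q`. -/
noncomputable def grav (m : Fin n → ℝ) (q : Fin n → ℂ) (i : Fin n) : ℂ :=
  ∑ j ∈ Finset.univ.erase i, ((m j / ‖q j - q i‖ ^ 3 : ℝ) : ℂ) * (q j - q i)

/-- A collision-free solution of Newton's equations, defined for all times. -/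
def IsMotion (m : Fin n → ℝ) (q : ℝ → Fin n → ℂ) : Prop :=
  (∀ t, Function.Injective (q t)) ∧
    ∃ v : ℝ → Fin n → ℂ, ∀ t i, HasDerivAt (fun s => q s i) (v t i) t ∧
      HasDerivAt (fun s => v s i) (grav m (q t) i) t

/-- `x`, rotating with angular velocity `ω ≠ 0` about its centre of mass (which is at the origin),
is a solution: a relative equilibrium. -/
def IsRelEq (m : Fin n → ℝ) (x : Fin n → ℂ) (ω : ℝ) : Prop :=
  ω ≠ 0 ∧ ∑ i, (m i : ℂ) * x i = 0 ∧ IsMotion m (fun t i => exp (I * ω * t) * x i)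

/-- The angular momentum in rotating coordinates: body `i` is at `exp (iωt) (z i)` and has the
velocity `exp (iωt) (w i + iω (z i))`. -/
noncomputable def angMom (m : Fin n → ℝ) (ω : ℝ) (z w : Fin n → ℂ) : ℝ :=
  ∑ i, m i * (starRingEnd ℂ (z i) * (w i + I * ω * z i)).im

/-- `ζ` (with velocity `η`) solves the linearised equations at the relative equilibrium `x` in
rotating coordinates; the nonlinear equations are `z'' = grav z + ω² z - 2iω z'`. -/
def IsVariation (m : Fin n → ℝ) (x : Fin n → ℂ) (ω : ℝ) (ζ η : ℝ → Fin n → ℂ) : Prop :=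
  ∀ t i, HasDerivAt (fun s => ζ s i) (η t i) t ∧
    HasDerivAt (fun s => η s i)
      (fderiv ℝ (grav m) x (ζ t) i + ω ^ 2 * ζ t i - 2 * I * ω * η t i) t

/-- Linear stability of the relative equilibrium in the system reduced by translations and
rotations: every solution of the linearised equations with zero centre of mass, zero total momentum
and zero variation of the angular momentum is bounded modulo the tangent line `ℝ i x` of the
rotation orbit. -/
def LinStable (m : Fin n → ℝ) (x : Fin n → ℂ) (ω : ℝ) : Prop :=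
  ∀ ζ η : ℝ → Fin n → ℂ, IsVariation m x ω ζ η →
    (∀ t, ∑ i, (m i : ℂ) * ζ t i = 0) → (∀ t, ∑ i, (m i : ℂ) * η t i = 0) →
    (∀ t, deriv (fun s : ℝ => angMom m ω (fun i => x i + s * ζ t i) (fun i => s * η t i)) 0 = 0) →
    ∃ C : ℝ, ∀ t, ∃ c : ℝ, ∀ i, ‖ζ t i - c * (I * x i)‖ ≤ C ∧ ‖η t i‖ ≤ C

/-- The moment of inertia `I`. -/
noncomputable def inertia (m : Fin n → ℝ) (q : Fin n → ℂ) : ℝ :=
  (∑ i, m i)⁻¹ * ∑ i, ∑ j, if i < j then m i * m j * ‖q i - q j‖ ^ 2 else 0

/-- The potential `U > 0`. -/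
noncomputable def pot (m : Fin n → ℝ) (q : Fin n → ℂ) : ℝ :=
  ∑ i, ∑ j, if i < j then m i * m j / ‖q i - q j‖ else 0

/-- The configurations with centre of mass at the origin and `I = 1`. -/
def sphere (m : Fin n → ℝ) : Set (Fin n → ℂ) :=
  {q | ∑ i, (m i : ℂ) * q i = 0 ∧ inertia m q = 1}

/-- The configuration `x` scaled to `I = 1`. -/
noncomputable def normalise (m : Fin n → ℝ) (x : Fin n → ℂ) : Fin n → ℂ :=
  fun i => (((Real.sqrt (inertia m x))⁻¹ : ℝ) : ℂ) * x i

end Pool.Agent.H19.MoeckelB
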