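import Pool.Agent.H19.MoeckelB.Coord

/-!
# The derivative of the Newtonian acceleration
-/

open Complex

set_option autoImplicit false

namespace Pool.Agent.H19.MoeckelB

open Pool.Agent.H19.Moeckel

/-- the attraction of one body -/
noncomputable def pull (w : ℂ) : ℂ := ((‖w‖ ^ 3)⁻¹ : ℝ) • w

/-- its derivative -/
noncomputable def pullD (w v : ℂ) : ℂ :=
  ((‖w‖ ^ 3)⁻¹ : ℝ) • v - (3 * (‖w‖ ^ 5)⁻¹ * (w.re * v.re + w.im * v.im)) • w

theorem norm_eq_RR (w : ℂ) : ‖w‖ = RR reCLM imCLM w := by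
  rw [Complex.norm_def, Complex.normSq_apply]
  unfold RR
  congr 1
  simp
  ring

theorem pull_hasFDerivAt {w : ℂ} (hw : w ≠ 0) :
    ∃ L : ℂ →L[ℝ] ℂ, HasFDerivAt pull L w ∧ ∀ v, L v = pullD w v := by
  have h : 0 < (reCLM w) ^ 2 + (imCLM w) ^ 2 := by
    have := Complex.normSq_pos.mpr hw
    rw [Complex.normSq_apply] at this
    simp only [reCLM_apply, imCLM_apply]
    nlinarith
  have hR := RR_pos h
  have h1 := inv_comp ((RR_hasFDerivAt h).pow 3) (pow_ne_zero 3 hR.ne')
  have h2 := h1.smul (hasFDerivAt_id (𝕜 := ℝ) w)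
  have e : ((fun q : ℂ => ((RR reCLM imCLM q) ^ 3)⁻¹) • (id : ℂ → ℂ)) = pull := by
    funext w
    unfold pull
    rw [norm_eq_RR]
    rfl
  rw [e] at h2
  refine ⟨_, h2, ?_⟩
  · intro v
    unfold pullD
    rw [norm_eq_RR]
    simp only [smul_apply, add_apply, smul_eq_mul, ContinuousLinearMap.smulRight_apply, neg_apply,
      Pi.add_apply, Pi.neg_apply, nsmul_eq_mul, ContinuousLinearMap.coe_id', id_eq, reCLM_apply,
      imCLM_apply, ContinuousLinearMap.id_apply]
    rw [sub_eq_add_neg, ← neg_smul]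
    congr 1
    congr 1
    field_simp
    ring

/-- derivative of the acceleration field -/
noncomputable def gravD {n : ℕ} (m : Fin n → ℝ) (x ζ : Fin n → ℂ) (i : Fin n) : ℂ :=
  ∑ j ∈ Finset.univ.erase i, (m j) • pullD (x j - x i) (ζ j - ζ i)

theorem grav_fderiv {n : ℕ} (m : Fin n → ℝ) (x : Fin n → ℂ) (hx : Function.Injective x)
    (ζ : Fin n → ℂ) (i : Fin n) : fderiv ℝ (grav m) x ζ i = gravD m x ζ i := by
  have hp : ∀ i j : Fin n, ∃ L : ℂ →L[ℝ] ℂ, i ≠ j →
      (HasFDerivAt pull L (x j - x i) ∧ ∀ v, L v = pullD (x j - x i) v) := by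
    intro i j
    by_cases hij : i = j
    · exact ⟨0, fun h => absurd hij h⟩
    · obtain ⟨L, hL⟩ := pull_hasFDerivAt (sub_ne_zero.mpr (fun h => hij (hx h).symm))
      exact ⟨L, fun _ => hL⟩
  choose L hL using hp
  have hg : HasFDerivAt (grav m) (ContinuousLinearMap.pi fun i : Fin n =>
      ∑ j ∈ Finset.univ.erase i, (m j) • (L i j).comp
        (ContinuousLinearMap.proj (R := ℝ) (φ := fun _ : Fin n => ℂ) j
          - ContinuousLinearMap.proj (R := ℝ) (φ := fun _ : Fin n => ℂ) i)) x := by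
    apply hasFDerivAt_pi.mpr
    intro i
    have e : (fun q : Fin n → ℂ => grav m q i)
        = fun q => ∑ j ∈ Finset.univ.erase i, (m j) • pull (q j - q i) := by
      funext q
      unfold grav
      apply Finset.sum_congr rfl
      intro j _
      unfold pull
      rw [smul_smul, Complex.real_smul, div_eq_mul_inv]
    rw [e]
    apply HasFDerivAt.fun_sum
    intro j hj
    have hij : i ≠ j := (Finset.ne_of_mem_erase hj).symm
    have h1 : HasFDerivAt (fun q : Fin n → ℂ => q j - q i)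
        (ContinuousLinearMap.proj (R := ℝ) (φ := fun _ : Fin n => ℂ) j
          - ContinuousLinearMap.proj (R := ℝ) (φ := fun _ : Fin n => ℂ) i) x :=
      (ContinuousLinearMap.proj (R := ℝ) (φ := fun _ : Fin n => ℂ) j
          - ContinuousLinearMap.proj (R := ℝ) (φ := fun _ : Fin n => ℂ) i).hasFDerivAt
    exact (HasFDerivAt.comp (g := pull) (f := fun q : Fin n → ℂ => q j - q i) x
      (hL i j hij).1 h1).fun_const_smul (m j)
  rw [hg.fderiv]
  simp only [ContinuousLinearMap.coe_pi', sum_apply, smul_apply, ContinuousLinearMap.comp_apply,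
    sub_apply, ContinuousLinearMap.proj_apply]
  unfold gravD
  apply Finset.sum_congr rfl
  intro j hj
  have hij : i ≠ j := (Finset.ne_of_mem_erase hj).symm
  rw [(hL i j hij).2]

/-- in real coordinates at the nine body configuration -/
theorem gravD_x9 (ζ : Fin 9 → ℂ) (i : Fin 9) (k : Fin 2) :
    toR (gravD m9 x9 ζ) (i, k) = acc (toR ζ) (i, k) - toR ζ (i, k) := by
  have hm := (m9_pos i).ne'
  have key : toR (gravD m9 x9 ζ) (i, k) = ∑ j, m9 j * pf (toR ζ) i j k := by
    have h0 : ∀ j, m9 j * pf (toR ζ) i j k = m9 j * (-((dist2 xx i j) ^ 3)⁻¹ * (toR ζ (i, k) - toR ζ (j, k))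
        + 3 * ((dist2 xx i j) ^ 5)⁻¹ * ((xx (i, 0) - xx (j, 0)) * (toR ζ (i, 0) - toR ζ (j, 0))
      + (xx (i, 1) - xx (j, 1)) * (toR ζ (i, 1) - toR ζ (j, 1))) * (xx (i, k) - xx (j, k))) := by
      intro j
      have h := Psi_eq (toR ζ) k i j
      unfold Psi at h
      rw [mul_assoc] at h
      exact (mul_left_cancel₀ hm h).symm
    simp only [h0]
    rw [← Finset.sum_erase_add _ _ (Finset.mem_univ i)]
    simp only [sub_self, mul_zero, add_zero]
    have hn : ∀ j, ‖x9 j - x9 i‖ = dist2 xx i j := by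
      intro j
      rw [norm_sub_eq, x9, toR_toC, dist2_comm]
    fin_cases k
    · show toR (gravD m9 x9 ζ) (i, 0) = _
      rw [toR_zero]
      unfold gravD pullD
      rw [Complex.re_sum]
      apply Finset.sum_congr rfl
      intro j _
      rw [hn]
      simp only [Complex.smul_re, Complex.sub_re, Complex.sub_im, smul_eq_mul, x9, toC, toR_zero,
        toR_one]
      show _ = m9 j * (-(dist2 xx i j ^ 3)⁻¹ * (toR ζ (i, 0) - toR ζ (j, 0)) +
        3 * (dist2 xx i j ^ 5)⁻¹ * ((xx (i, 0) - xx (j, 0)) * ((ζ i).re - (ζ j).re)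
          + (xx (i, 1) - xx (j, 1)) * ((ζ i).im - (ζ j).im)) * (xx (i, 0) - xx (j, 0)))
      rw [toR_zero, toR_zero]
      ring
    · show toR (gravD m9 x9 ζ) (i, 1) = _
      rw [toR_one]
      unfold gravD pullD
      rw [Complex.im_sum]
      apply Finset.sum_congr rfl
      intro j _
      rw [hn]
      simp only [Complex.smul_im, Complex.sub_re, Complex.sub_im, smul_eq_mul, x9, toC, toR_zero,
        toR_one]
      show _ = m9 j * (-(dist2 xx i j ^ 3)⁻¹ * (toR ζ (i, 1) - toR ζ (j, 1)) +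
        3 * (dist2 xx i j ^ 5)⁻¹ * ((xx (i, 0) - xx (j, 0)) * ((ζ i).re - (ζ j).re)
          + (xx (i, 1) - xx (j, 1)) * ((ζ i).im - (ζ j).im)) * (xx (i, 1) - xx (j, 1)))
      rw [toR_one, toR_one]
      ring
  rw [key]
  unfold acc
  ring

end Pool.Agent.H19.MoeckelB
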