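import Pool.Agent.H19.MoeckelB.Stable
import Pool.Agent.H19.MoeckelB.Calc

/-!
# The configuration is not a local minimum
-/

open Complex Filter Topology

set_option autoImplicit false

namespace Pool.Agent.H19.MoeckelB

open Pool.Agent.H19.Moeckel

/-- the potential in real coordinates -/
noncomputable def U9 (q : Fin 9 × Fin 2 → ℝ) : ℝ := ∑ i : Fin 9, ∑ j : Fin 9,
  if i < j then m9 i * m9 j / Real.sqrt ((q (i, 0) - q (j, 0)) ^ 2 + (q (i, 1) - q (j, 1)) ^ 2)
  else 0

theorem pot_eq (z : Fin 9 → ℂ) : pot m9 z = U9 (toR z) := by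
  unfold pot U9
  simp only [norm_sub_eq]
  rfl

theorem lin_zz (L : (Fin 9 × Fin 2 → ℝ) →L[ℝ] ℝ) : L zz
    = ∑ p : Fin 9 × Fin 2, zz p * L (Pi.single p (1 : ℝ)) := by
  have e2 : zz = ∑ p : Fin 9 × Fin 2, zz p • (Pi.single p (1 : ℝ) : Fin 9 × Fin 2 → ℝ) := by
    funext q
    rw [Finset.sum_apply, Finset.sum_eq_single q]
    · simp
    · intro b _ hb
      simp [hb.symm]
    · simp
  conv_lhs => rw [e2]
  rw [map_sum]
  apply Finset.sum_congr rfl
  intro p _
  rw [map_smul, smul_eq_mul]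

theorem U9_first : fderiv ℝ U9 xx zz = 0 := by
  rw [lin_zz]
  have h : ∀ p : Fin 9 × Fin 2, zz p * fderiv ℝ U9 xx (Pi.single p (1 : ℝ))
      = - (m9 p.1 * zz p * xx p) := by
    rintro ⟨a, k⟩
    rw [U_first_single m9 U9 (fun q => rfl) xx x9_free a k, grad_eq a k]
    ring
  simp only [h, Finset.sum_neg_distrib, zz_xx, neg_zero]

theorem U9_second : fderiv ℝ (fderiv ℝ U9) xx zz zz
    = ∑ i : Fin 9, ∑ k : Fin 2, m9 i * zz (i, k) * acc zz (i, k)
      - ∑ i : Fin 9, ∑ k : Fin 2, m9 i * zz (i, k) ^ 2 := by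
  have hsec : ∀ p : Fin 9 × Fin 2, fderiv ℝ (fderiv ℝ U9) xx zz (Pi.single p (1 : ℝ))
        = m9 p.1 * (acc zz p - zz p) := by
    rintro ⟨a, k⟩
    rw [U_second_single m9 U9 (fun q => rfl) xx x9_free zz a k]
    unfold acc
    simp only [Psi_eq]
    rw [← Finset.mul_sum]
    ring
  rw [lin_zz, Fintype.sum_prod_type, ← Finset.sum_sub_distrib]
  apply Finset.sum_congr rfl
  intro i _
  rw [← Finset.sum_sub_distrib]
  apply Finset.sum_congr rfl
  intro k _
  rw [hsec]
  ring

/-- the moment of inertia of the configuration -/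
noncomputable def Ix : ℝ := ∑ i : Fin 9, ∑ k : Fin 2, m9 i * xx (i, k) ^ 2
/-- the moment of inertia of the direction -/
noncomputable def Iz : ℝ := ∑ i : Fin 9, ∑ k : Fin 2, m9 i * zz (i, k) ^ 2

theorem Iz_nonneg : 0 ≤ Iz := Finset.sum_nonneg fun i _ => Finset.sum_nonneg fun k _ =>
  mul_nonneg (m9_pos i).le (sq_nonneg _)

theorem Ix_pos : 0 < Ix := by
  apply Finset.sum_pos'
  · intro i _
    exact Finset.sum_nonneg fun k _ => mul_nonneg (m9_pos i).le (sq_nonneg _)
  · refine ⟨1, Finset.mem_univ _, ?_⟩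
    have := m9_pos 1
    simp [xx, XQ]
    exact this

/-- Euler's relation -/
theorem U9_xx : U9 xx = Ix := by
  have h1 := sum_sym (fun i j => if i < j then m9 i * m9 j / dist2 xx i j else 0)
    (fun i j => (1 / 2) * ∑ k : Fin 2, xx (i, k) * (m9 i * m9 j * ((dist2 xx i j ^ 3)⁻¹
      * (xx (i, k) - xx (j, k))))) (by
    intro i j
    by_cases hij : i = j
    · subst hij
      simp
    · have hd : 0 < dist2 xx i j := Real.sqrt_pos.mpr (sq_pos_of_ne i j hij)
      have hsq : (dist2 xx i j) ^ 2 = (xx (i, 0) - xx (j, 0)) ^ 2 + (xx (i, 1) - xx (j, 1)) ^ 2 :=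
        Real.sq_sqrt (sq_pos_of_ne i j hij).le
      have h5 : ((dist2 xx i j))⁻¹ = ((dist2 xx i j) ^ 3)⁻¹
          * ((xx (i, 0) - xx (j, 0)) ^ 2 + (xx (i, 1) - xx (j, 1)) ^ 2) := by
        rw [← hsq]
        field_simp
      have h6 : (if i < j then m9 i * m9 j / dist2 xx i j else 0)
          + (if j < i then m9 j * m9 i / dist2 xx j i else 0)
          = m9 i * m9 j * (dist2 xx i j)⁻¹ := by
        rcases lt_or_gt_of_ne hij with h | h
        · simp [h, not_lt.mpr h.le, div_eq_mul_inv]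
        · simp [h, not_lt.mpr h.le, div_eq_mul_inv, dist2_comm xx j i, mul_comm (m9 j)]
      rw [h6, h5]
      simp only [Fin.sum_univ_two]
      rw [dist2_comm xx j i]
      ring)
  have h2 : U9 xx = ∑ i : Fin 9, ∑ j : Fin 9, if i < j then m9 i * m9 j / dist2 xx i j else 0 := rfl
  rw [h2, h1]
  unfold Ix
  rw [Finset.mul_sum]
  apply Finset.sum_congr rfl
  intro i _
  rw [← Finset.mul_sum, Finset.sum_comm]
  have h3 : ∀ k : Fin 2, ∑ j, xx (i, k) * (m9 i * m9 j * ((dist2 xx i j ^ 3)⁻¹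
      * (xx (i, k) - xx (j, k)))) = m9 i * xx (i, k) ^ 2 := by
    intro k
    have h := grad_eq i k
    rw [← Finset.mul_sum]
    have h2 : ∑ j, m9 i * m9 j * ((dist2 xx i j ^ 3)⁻¹ * (xx (i, k) - xx (j, k)))
        = m9 i * xx (i, k) := by
      rw [← neg_inj, ← h, ← Finset.sum_neg_distrib]
      apply Finset.sum_congr rfl
      intro j _
      ring
    rw [h2]; ring
  simp only [h3]
  ring

theorem U9_diff : DifferentiableAt ℝ (fderiv ℝ U9) xx := by
  by_contra h
  have h1 := U9_second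
  rw [fderiv_zero_of_not_differentiableAt h] at h1
  have h2 := zz_form_neg
  have h3 := Iz_nonneg
  have h4 : (0 : (Fin 9 × Fin 2 → ℝ) →L[ℝ] ((Fin 9 × Fin 2 → ℝ) →L[ℝ] ℝ)) zz zz = 0 := rfl
  rw [h4] at h1
  unfold Iz at h3
  linarith

theorem no_min9 : ¬ IsLocalMin (fun s : ℝ => U9 (xx + s • zz) ^ 2 * (Ix + s ^ 2 * Iz)) 0 := by
  have hline : ∀ s : ℝ, HasDerivAt (fun s : ℝ => xx + s • zz) zz s := by
    intro s
    have := ((hasDerivAt_id s).smul_const zz).const_add xx
    simpa using this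
  have h00 : xx + (0 : ℝ) • zz = xx := by simp
  apply no_min (fun s : ℝ => U9 (xx + s • zz)) (fun s => fderiv ℝ U9 (xx + s • zz) zz)
    (fderiv ℝ (fderiv ℝ U9) xx zz zz) Ix Iz
  · have hc : Tendsto (fun s : ℝ => xx + s • zz) (𝓝 0) (𝓝 xx) := by
      have := (hline 0).continuousAt.tendsto
      rwa [h00] at this
    filter_upwards [hc.eventually (eventually_free xx x9_free)] with s hs
    have h1 := U_hasFDerivAt m9 U9 (fun q => rfl) (xx + s • zz) hs
    rw [h1.fderiv]
    exact h1.comp_hasDerivAt s (hline s)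
  · have h1 : HasFDerivAt (fderiv ℝ U9) (fderiv ℝ (fderiv ℝ U9) xx) (xx + (0 : ℝ) • zz) := by
      rw [h00]
      exact U9_diff.hasFDerivAt
    have h2 := h1.comp_hasDerivAt (0 : ℝ) (hline 0)
    exact h2.clm_apply (hasDerivAt_const 0 zz) |>.congr_deriv (by simp)
  · simp only [h00]
    exact U9_first
  · simp only [h00]
    rw [U9_xx]
    exact Ix_pos
  · simp only [h00]
    rw [U9_xx, U9_second]
    have h2 := zz_form_neg
    have h3 := Ix_pos
    have e : (∑ i : Fin 9, ∑ k : Fin 2, m9 i * zz (i, k) * acc zz (i, k)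
      - ∑ i : Fin 9, ∑ k : Fin 2, m9 i * zz (i, k) ^ 2) * Ix + Ix * Iz
      = (∑ i : Fin 9, ∑ k : Fin 2, m9 i * zz (i, k) * acc zz (i, k)) * Ix := by
      unfold Iz
      ring
    rw [e]
    exact mul_neg_of_neg_of_pos h2 h3

/-- the direction in complex coordinates -/
noncomputable def z9 : Fin 9 → ℂ := toC zz

/-- the line through the configuration -/
noncomputable def line (s : ℝ) (i : Fin 9) : ℂ := x9 i + s * z9 i

theorem toR_line (s : ℝ) : toR (line s) = xx + s • zz := by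
  funext ⟨i, k⟩
  fin_cases k
  · show toR (line s) (i, 0) = xx (i, 0) + s * zz (i, 0)
    rw [toR_zero]
    simp [line, x9, z9, toC]
  · show toR (line s) (i, 1) = xx (i, 1) + s * zz (i, 1)
    rw [toR_one]
    simp [line, x9, z9, toC]

theorem z9_com : ∑ i, (m9 i : ℂ) * z9 i = 0 := by
  apply Complex.ext
  · have := zz_com 0
    simpa [z9, toC] using this
  · have := zz_com 1
    simpa [z9, toC] using this

theorem line_com (s : ℝ) : ∑ i, (m9 i : ℂ) * line s i = 0 := by
  have e : ∀ i, (m9 i : ℂ) * line s i = (m9 i : ℂ) * x9 i + s * ((m9 i : ℂ) * z9 i) := by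
    intro i
    unfold line
    ring
  simp only [e, Finset.sum_add_distrib, ← Finset.mul_sum, x9_com, z9_com]
  simp

theorem line_inertia (s : ℝ) : inertia m9 (line s) = Ix + s ^ 2 * Iz := by
  have hM : 0 < ∑ i, m9 i := Finset.sum_pos (fun i _ => m9_pos i) Finset.univ_nonempty
  rw [inertia_eq m9 hM.ne' _ (line_com s)]
  have h1 := zz_xx
  rw [Fintype.sum_prod_type] at h1
  have e : ∀ i, m9 i * ((line s i).re ^ 2 + (line s i).im ^ 2)
      = ∑ k : Fin 2, m9 i * xx (i, k) ^ 2 + s ^ 2 * ∑ k : Fin 2, m9 i * zz (i, k) ^ 2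
        + 2 * s * ∑ k : Fin 2, m9 i * zz (i, k) * xx (i, k) := by
    intro i
    have h0 : (line s i).re = xx (i, 0) + s * zz (i, 0) := by simp [line, x9, z9, toC]
    have h1 : (line s i).im = xx (i, 1) + s * zz (i, 1) := by simp [line, x9, z9, toC]
    rw [h0, h1]
    simp only [Fin.sum_univ_two]
    ring
  have h3 : ∑ i, m9 i * ((line s i).re ^ 2 + (line s i).im ^ 2)
      = Ix + s ^ 2 * Iz + 2 * s * ∑ i, ∑ k : Fin 2, m9 i * zz (i, k) * xx (i, k) := by
    unfold Ix Iz
    rw [Finset.mul_sum, Finset.mul_sum, ← Finset.sum_add_distrib, ← Finset.sum_add_distrib]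
    exact Finset.sum_congr rfl fun i _ => e i
  have h4 : ∑ i, ∑ k : Fin 2, m9 i * zz (i, k) * xx (i, k) = 0 := h1
  rw [h3, h4]
  ring

theorem not_min9 : ¬ IsLocalMinOn (pot m9) (sphere m9) (normalise m9 x9) := by
  intro h
  apply no_min9
  have hI : ∀ s : ℝ, 0 < Ix + s ^ 2 * Iz := fun s =>
    add_pos_of_pos_of_nonneg Ix_pos (mul_nonneg (sq_nonneg s) Iz_nonneg)
  have hline0 : line 0 = x9 := by
    funext i
    simp [line]
  have hpot : ∀ s : ℝ, pot m9 (normalise m9 (line s)) = Real.sqrt (Ix + s ^ 2 * Iz) * U9 (xx + s • zz) := by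
    intro s
    unfold normalise
    rw [pot_smul, pot_eq, toR_line, line_inertia, inv_inv]
    rw [line_inertia]
    exact inv_pos.mpr (Real.sqrt_pos.mpr (hI s))
  have hmem : ∀ s : ℝ, normalise m9 (line s) ∈ sphere m9 := by
    intro s
    constructor
    · unfold normalise
      have e : ∀ i, (m9 i : ℂ) * ((((Real.sqrt (inertia m9 (line s)))⁻¹ : ℝ) : ℂ) * line s i)
          = (((Real.sqrt (inertia m9 (line s)))⁻¹ : ℝ) : ℂ) * ((m9 i : ℂ) * line s i) := by
        intro i; ring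
      simp only [e, ← Finset.mul_sum, line_com, mul_zero]
    · unfold normalise
      rw [inertia_smul, line_inertia, inv_pow, Real.sq_sqrt (hI s).le]
      exact inv_mul_cancel₀ (hI s).ne'
  have hcont : Tendsto (fun s : ℝ => normalise m9 (line s)) (𝓝 0) (𝓝 (normalise m9 x9)) := by
    have hc : Continuous fun s : ℝ => normalise m9 (line s) := by
      unfold normalise
      simp only [line_inertia]
      apply continuous_pi
      intro i
      have h1 : Continuous fun s : ℝ => (Real.sqrt (Ix + s ^ 2 * Iz))⁻¹ := by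
        apply Continuous.inv₀
        · fun_prop
        · intro s
          exact (Real.sqrt_pos.mpr (hI s)).ne'
      have h2 : Continuous fun s : ℝ => line s i := by
        unfold line
        fun_prop
      exact (Complex.continuous_ofReal.comp h1).mul h2
    have := hc.tendsto 0
    rwa [hline0] at this
  have htend : Tendsto (fun s : ℝ => normalise m9 (line s)) (𝓝 0)
      (𝓝[sphere m9] (normalise m9 x9)) :=
    tendsto_nhdsWithin_iff.mpr ⟨hcont, Filter.Eventually.of_forall hmem⟩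
  have hev := htend.eventually h
  filter_upwards [hev] with s hs
  rw [← hline0, hpot, hpot] at hs
  have hpos : 0 ≤ Real.sqrt (Ix + (0 : ℝ) ^ 2 * Iz) * U9 (xx + (0 : ℝ) • zz) := by
    have : U9 (xx + (0 : ℝ) • zz) = Ix := by
      rw [zero_smul, add_zero, U9_xx]
    rw [this]
    exact mul_nonneg (Real.sqrt_nonneg _) Ix_pos.le
  have h2 := pow_le_pow_left₀ hpos hs 2
  rw [mul_pow, mul_pow, Real.sq_sqrt (hI 0).le, Real.sq_sqrt (hI s).le] at h2
  linarith

end Pool.Agent.H19.MoeckelB
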