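import Pool.Agent.H19.MoeckelB.GravDeriv

/-!
# Linear stability in the reduced system
-/

open Complex

set_option autoImplicit false

namespace Pool.Agent.H19.MoeckelB

open Pool.Agent.H19.Moeckel

theorem sum_sym (F G : Fin 9 → Fin 9 → ℝ) (h : ∀ i j, F i j + F j i = 2 * (G i j + G j i)) :
    ∑ i, ∑ j, F i j = 2 * ∑ i, ∑ j, G i j := by
  have h1 : ∑ i, ∑ j, (F i j + F j i) = ∑ i, ∑ j, (2 * (G i j + G j i)) := by
    apply Finset.sum_congr rfl; intro i _
    apply Finset.sum_congr rfl; intro j _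
    exact h i j
  simp only [Finset.sum_add_distrib, ← Finset.mul_sum] at h1
  rw [Finset.sum_comm (f := fun i j => F j i), Finset.sum_comm (f := fun i j => G j i)] at h1
  linarith

/-- the second derivative of the potential applied to the position -/
theorem radial (v : Fin 9 × Fin 2 → ℝ) :
    ∑ i, ∑ k : Fin 2, m9 i * xx (i, k) * (acc v (i, k) - v (i, k))
      = 2 * ∑ i, ∑ k : Fin 2, m9 i * xx (i, k) * v (i, k) := by
  have e1 : ∀ i, ∑ k : Fin 2, m9 i * xx (i, k) * (acc v (i, k) - v (i, k))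
      = ∑ j, ∑ k : Fin 2, xx (i, k) * Psi m9 xx v k i j := by
    intro i
    rw [Finset.sum_comm]
    apply Finset.sum_congr rfl
    intro k _
    simp only [Psi_eq, ← Finset.mul_sum]
    unfold acc
    ring
  have e2 : ∀ i, ∑ k : Fin 2, m9 i * xx (i, k) * v (i, k)
      = ∑ j, ∑ k : Fin 2, v (i, k) * (m9 i * m9 j * ((dist2 xx i j ^ 3)⁻¹ * (xx (i, k) - xx (j, k)))) := by
    intro i
    rw [Finset.sum_comm]
    apply Finset.sum_congr rfl
    intro k _
    have h := grad_eq i k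
    rw [← Finset.mul_sum]
    have h2 : ∑ j, m9 i * m9 j * ((dist2 xx i j ^ 3)⁻¹ * (xx (i, k) - xx (j, k)))
        = m9 i * xx (i, k) := by
      rw [← neg_inj, ← h, ← Finset.sum_neg_distrib]
      apply Finset.sum_congr rfl
      intro j _
      ring
    rw [h2]; ring
  simp only [e1, e2]
  apply sum_sym
  intro i j
  simp only [Fin.sum_univ_two]
  by_cases hij : i = j
  · subst hij
    unfold Psi
    ring
  · have hd : 0 < dist2 xx i j := Real.sqrt_pos.mpr (sq_pos_of_ne i j hij)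
    have hsq : (dist2 xx i j) ^ 2 = (xx (i, 0) - xx (j, 0)) ^ 2 + (xx (i, 1) - xx (j, 1)) ^ 2 :=
      Real.sq_sqrt (sq_pos_of_ne i j hij).le
    have h5 : ((dist2 xx i j) ^ 3)⁻¹ = ((dist2 xx i j) ^ 5)⁻¹
        * ((xx (i, 0) - xx (j, 0)) ^ 2 + (xx (i, 1) - xx (j, 1)) ^ 2) := by
      rw [← hsq]
      field_simp
    unfold Psi
    rw [dist2_comm xx j i, h5]
    ring

theorem osc (u w : ℝ → ℝ) (hu : ∀ t, HasDerivAt u (w t) t) (hw : ∀ t, HasDerivAt w (-u t) t)
    (t : ℝ) : u t ^ 2 + w t ^ 2 = u 0 ^ 2 + w 0 ^ 2 := by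
  have h : ∀ t, HasDerivAt (fun t => u t ^ 2 + w t ^ 2) 0 t := by
    intro t
    have := ((hu t).pow 2).add ((hw t).pow 2)
    refine this.congr_deriv ?_
    simp
    ring
  exact is_const_of_deriv_eq_zero (fun t => (h t).differentiableAt) (fun t => (h t).deriv) t 0

theorem angMom_var (ζ η : Fin 9 → ℂ)
    (h : deriv (fun s : ℝ => angMom m9 1 (fun i => x9 i + s * ζ i) (fun i => s * η i)) 0 = 0) :
    ∑ i, m9 i * (xx (i, 0) * (η i).im - xx (i, 1) * (η i).re)
      + 2 * ∑ i, ∑ k : Fin 2, m9 i * xx (i, k) * toR ζ (i, k) = 0 := by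
  have e : (fun s : ℝ => angMom m9 1 (fun i => x9 i + s * ζ i) (fun i => s * η i))
      = fun s : ℝ => (∑ i, m9 i * (xx (i, 0) ^ 2 + xx (i, 1) ^ 2))
        + s * (∑ i, m9 i * (xx (i, 0) * (η i).im - xx (i, 1) * (η i).re
          + 2 * (xx (i, 0) * (ζ i).re + xx (i, 1) * (ζ i).im)))
        + s ^ 2 * (∑ i, m9 i * ((ζ i).re * (η i).im - (ζ i).im * (η i).re
          + ((ζ i).re ^ 2 + (ζ i).im ^ 2))) := by
    funext s
    unfold angMom
    rw [Finset.mul_sum, Finset.mul_sum, ← Finset.sum_add_distrib, ← Finset.sum_add_distrib]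
    apply Finset.sum_congr rfl
    intro i _
    simp [x9, toC]
    ring
  rw [e] at h
  have hd : HasDerivAt (fun s : ℝ => (∑ i, m9 i * (xx (i, 0) ^ 2 + xx (i, 1) ^ 2))
        + s * (∑ i, m9 i * (xx (i, 0) * (η i).im - xx (i, 1) * (η i).re
          + 2 * (xx (i, 0) * (ζ i).re + xx (i, 1) * (ζ i).im)))
        + s ^ 2 * (∑ i, m9 i * ((ζ i).re * (η i).im - (ζ i).im * (η i).re
          + ((ζ i).re ^ 2 + (ζ i).im ^ 2))))
      (∑ i, m9 i * (xx (i, 0) * (η i).im - xx (i, 1) * (η i).re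
          + 2 * (xx (i, 0) * (ζ i).re + xx (i, 1) * (ζ i).im))) 0 := by
    have h1 := ((hasDerivAt_id (0 : ℝ)).mul_const (∑ i, m9 i * (xx (i, 0) * (η i).im
      - xx (i, 1) * (η i).re + 2 * (xx (i, 0) * (ζ i).re + xx (i, 1) * (ζ i).im)))).const_add
      (∑ i, m9 i * (xx (i, 0) ^ 2 + xx (i, 1) ^ 2))
    have h2 := ((hasDerivAt_id (0 : ℝ)).pow 2).mul_const (∑ i, m9 i * ((ζ i).re * (η i).im
      - (ζ i).im * (η i).re + ((ζ i).re ^ 2 + (ζ i).im ^ 2)))
    refine (h1.add h2).congr_deriv ?_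
    simp
  rw [hd.deriv] at h
  rw [← h, Finset.mul_sum, ← Finset.sum_add_distrib]
  apply Finset.sum_congr rfl
  intro i _
  simp only [Fin.sum_univ_two, toR_zero, toR_one]
  ring

theorem coeff_bound (z : Fin 9 → ℂ) (A c : ℂ) (K : ℝ) (hz : ∑ i, (m9 i : ℂ) * z i = 0)
    (h : ∀ i, ‖z i - (A + c * x9 i)‖ ≤ K) :
    ‖A‖ ≤ K ∧ ‖c * ((∑ i, m9 i * ‖x9 i‖ ^ 2 : ℝ) : ℂ) - ∑ i, (m9 i : ℂ) * (starRingEnd ℂ (x9 i) * z i)‖
      ≤ K * ∑ i, m9 i * ‖x9 i‖ := by
  have hM : 0 < ∑ i, m9 i := Finset.sum_pos (fun i _ => m9_pos i) Finset.univ_nonempty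
  constructor
  · have e : ((∑ i, m9 i : ℝ) : ℂ) * A = - ∑ i, (m9 i : ℂ) * (z i - (A + c * x9 i)) := by
      have h1 : ∑ i, (m9 i : ℂ) * (z i - (A + c * x9 i))
          = ∑ i, (m9 i : ℂ) * z i - (∑ i, (m9 i : ℂ)) * A - c * ∑ i, (m9 i : ℂ) * x9 i := by
        rw [Finset.sum_mul, Finset.mul_sum, ← Finset.sum_sub_distrib, ← Finset.sum_sub_distrib]
        apply Finset.sum_congr rfl
        intro i _
        ring
      rw [h1, hz, x9_com]
      push_cast
      ring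
    have h2 : (∑ i, m9 i) * ‖A‖ ≤ (∑ i, m9 i) * K := by
      have h3 : ‖((∑ i, m9 i : ℝ) : ℂ) * A‖ = (∑ i, m9 i) * ‖A‖ := by
        rw [norm_mul, Complex.norm_real, Real.norm_of_nonneg hM.le]
      rw [← h3, e, norm_neg, Finset.sum_mul]
      refine (norm_sum_le _ _).trans ?_
      apply Finset.sum_le_sum
      intro i _
      rw [norm_mul, Complex.norm_real, Real.norm_of_nonneg (m9_pos i).le]
      exact mul_le_mul_of_nonneg_left (h i) (m9_pos i).le
    exact le_of_mul_le_mul_left h2 hM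
  · have hconj : ∑ i, (m9 i : ℂ) * starRingEnd ℂ (x9 i) = 0 := by
      have := congrArg (starRingEnd ℂ) x9_com
      rw [map_sum, map_zero] at this
      rw [← this]
      apply Finset.sum_congr rfl
      intro i _
      rw [map_mul, Complex.conj_ofReal]
    have e : c * ((∑ i, m9 i * ‖x9 i‖ ^ 2 : ℝ) : ℂ) - ∑ i, (m9 i : ℂ) * (starRingEnd ℂ (x9 i) * z i)
        = - ∑ i, (m9 i : ℂ) * starRingEnd ℂ (x9 i) * (z i - (A + c * x9 i)) := by
      have h1 : ∑ i, (m9 i : ℂ) * starRingEnd ℂ (x9 i) * (z i - (A + c * x9 i))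
          = ∑ i, (m9 i : ℂ) * (starRingEnd ℂ (x9 i) * z i)
            - (∑ i, (m9 i : ℂ) * starRingEnd ℂ (x9 i)) * A
            - c * ∑ i, (m9 i : ℂ) * (‖x9 i‖ : ℂ) ^ 2 := by
        rw [Finset.sum_mul, Finset.mul_sum, ← Finset.sum_sub_distrib, ← Finset.sum_sub_distrib]
        apply Finset.sum_congr rfl
        intro i _
        rw [← Complex.conj_mul']
        ring
      rw [h1, hconj]
      push_cast
      ring
    rw [e, norm_neg, Finset.mul_sum]
    refine (norm_sum_le _ _).trans ?_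
    apply Finset.sum_le_sum
    intro i _
    rw [norm_mul, norm_mul, Complex.norm_real, Real.norm_of_nonneg (m9_pos i).le,
      RCLike.norm_conj]
    have := mul_le_mul_of_nonneg_left (h i) (mul_nonneg (m9_pos i).le (norm_nonneg (x9 i)))
    linarith

end Pool.Agent.H19.MoeckelB
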