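import Pool.Agent.H19.MoeckelB.Stable

/-!
# Linear stability in the reduced system: the proof
-/

open Complex

set_option autoImplicit false

namespace Pool.Agent.H19.MoeckelB

open Pool.Agent.H19.Moeckel

theorem real_deriv {f : ℝ → Fin 9 → ℂ} {g : Fin 9 → ℂ} {t : ℝ}
    (h : ∀ i, HasDerivAt (fun s => f s i) (g i) t) : HasDerivAt (fun s => toR (f s)) (toR g) t := by
  rw [hasDerivAt_pi]
  rintro ⟨i, k⟩
  fin_cases k
  · have := reCLM.hasFDerivAt.comp_hasDerivAt t (h i)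
    show HasDerivAt (fun s => toR (f s) (i, 0)) (toR g (i, 0)) t
    simp only [toR_zero]
    exact this
  · have := imCLM.hasFDerivAt.comp_hasDerivAt t (h i)
    show HasDerivAt (fun s => toR (f s) (i, 1)) (toR g (i, 1)) t
    simp only [toR_one]
    exact this

theorem toR_variation (ζ η : Fin 9 → ℂ) :
    toR (fun i => fderiv ℝ (grav m9) x9 ζ i + ((1 : ℝ) : ℂ) ^ 2 * ζ i - 2 * I * ((1 : ℝ) : ℂ) * η i)
      = acc (toR ζ) - (2 : ℝ) • JJ (toR η) := by
  funext ⟨i, k⟩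
  have h := gravD_x9 ζ i k
  have e := grav_fderiv m9 x9 x9_inj ζ i
  fin_cases k
  · show toR _ (i, 0) = acc (toR ζ) (i, 0) - 2 * JJ (toR η) (i, 0)
    have h' : toR (gravD m9 x9 ζ) (i, 0) = acc (toR ζ) (i, 0) - toR ζ (i, 0) := h
    rw [toR_zero] at h'
    have hJ : JJ (toR η) (i, 0) = - (η i).im := by simp [JJ]
    rw [toR_zero, e, hJ]
    simp
    rw [h', toR_zero]
    ring
  · show toR _ (i, 1) = acc (toR ζ) (i, 1) - 2 * JJ (toR η) (i, 1)
    have h' : toR (gravD m9 x9 ζ) (i, 1) = acc (toR ζ) (i, 1) - toR ζ (i, 1) := h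
    rw [toR_one] at h'
    have hJ : JJ (toR η) (i, 1) = (η i).re := by simp [JJ]
    rw [toR_one, e, hJ]
    simp
    rw [h', toR_one]
    ring

/-- from real components to a complex estimate -/
theorem complex_of_real (z : Fin 9 → ℂ) (a : Fin 2 → ℝ) (c0 c1 C : ℝ)
    (h : ∀ p : Fin 9 × Fin 2, |toR z p - (a p.2 + c0 * xx p + c1 * JJ xx p)| ≤ C) (i : Fin 9) :
    ‖z i - ((⟨a 0, a 1⟩ : ℂ) + (⟨c0, c1⟩ : ℂ) * x9 i)‖ ≤ 2 * C := by
  refine (Complex.norm_le_abs_re_add_abs_im _).trans ?_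
  have h0 := h (i, 0)
  have h1 := h (i, 1)
  rw [toR_zero] at h0
  rw [toR_one] at h1
  have e0 : (z i - ((⟨a 0, a 1⟩ : ℂ) + (⟨c0, c1⟩ : ℂ) * x9 i)).re
      = (z i).re - (a 0 + c0 * xx (i, 0) + c1 * JJ xx (i, 0)) := by
    simp [x9, toC, JJ]
    ring
  have e1 : (z i - ((⟨a 0, a 1⟩ : ℂ) + (⟨c0, c1⟩ : ℂ) * x9 i)).im
      = (z i).im - (a 1 + c0 * xx (i, 1) + c1 * JJ xx (i, 1)) := by
    simp [x9, toC, JJ]
    ring
  rw [e0, e1]
  linarith

theorem dot_re (z : Fin 9 → ℂ) : (∑ i, (m9 i : ℂ) * (starRingEnd ℂ (x9 i) * z i)).re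
    = ∑ i, ∑ k : Fin 2, m9 i * xx (i, k) * toR z (i, k) := by
  rw [Complex.re_sum]
  apply Finset.sum_congr rfl
  intro i _
  simp only [Fin.sum_univ_two, toR_zero, toR_one]
  simp [x9, toC]
  ring

theorem dot_im (z : Fin 9 → ℂ) : (∑ i, (m9 i : ℂ) * (starRingEnd ℂ (x9 i) * z i)).im
    = ∑ i, m9 i * (xx (i, 0) * (z i).im - xx (i, 1) * (z i).re) := by
  rw [Complex.im_sum]
  apply Finset.sum_congr rfl
  intro i _
  simp [x9, toC]
  left
  ring

theorem stable9 : LinStable m9 x9 1 := by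
  intro ζ η hvar hcz hce hang
  have hξ : ∀ t, HasDerivAt (fun s => toR (ζ s)) (toR (η t)) t :=
    fun t => real_deriv fun i => (hvar t i).1
  have hη : ∀ t, HasDerivAt (fun s => toR (η s))
      (acc (toR (ζ t)) - (2 : ℝ) • JJ (toR (η t))) t := by
    intro t
    rw [← toR_variation]
    exact real_deriv fun i => (hvar t i).2
  obtain ⟨C, hC⟩ := bounded_all _ _ hξ hη
  have hC0 : 0 ≤ C := by
    obtain ⟨a, b, c, h⟩ := hC 0
    exact (abs_nonneg _).trans (h (0, 0)).1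
  -- the oscillating part
  set u : ℝ → ℝ := fun t => ∑ i, ∑ k : Fin 2, m9 i * xx (i, k) * toR (ζ t) (i, k) with hu
  set w : ℝ → ℝ := fun t => ∑ i, ∑ k : Fin 2, m9 i * xx (i, k) * toR (η t) (i, k) with hw
  have hav : ∀ t, ∑ i, m9 i * (xx (i, 0) * (η t i).im - xx (i, 1) * (η t i).re) = - (2 * u t) := by
    intro t
    have := angMom_var (ζ t) (η t) (hang t)
    linarith
  have hud : ∀ t, HasDerivAt u (w t) t := by
    intro t
    apply HasDerivAt.fun_sum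
    intro i _
    apply HasDerivAt.fun_sum
    intro k _
    exact (hasDerivAt_pi.mp (hξ t) (i, k)).const_mul _
  have hwd : ∀ t, HasDerivAt w (- u t) t := by
    intro t
    have h1 : HasDerivAt w (∑ i, ∑ k : Fin 2, m9 i * xx (i, k)
        * (acc (toR (ζ t)) - (2 : ℝ) • JJ (toR (η t))) (i, k)) t := by
      apply HasDerivAt.fun_sum
      intro i _
      apply HasDerivAt.fun_sum
      intro k _
      exact (hasDerivAt_pi.mp (hη t) (i, k)).const_mul _
    refine h1.congr_deriv ?_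
    have h2 := radial (toR (ζ t))
    have h3 : ∑ i, ∑ k : Fin 2, m9 i * xx (i, k) * (acc (toR (ζ t)) - (2 : ℝ) • JJ (toR (η t))) (i, k)
        = ∑ i, ∑ k : Fin 2, m9 i * xx (i, k) * (acc (toR (ζ t)) (i, k) - toR (ζ t) (i, k))
          + u t + 2 * ∑ i, m9 i * (xx (i, 0) * (η t i).im - xx (i, 1) * (η t i).re) := by
      rw [hu]
      simp only
      rw [Finset.mul_sum, ← Finset.sum_add_distrib, ← Finset.sum_add_distrib]
      apply Finset.sum_congr rfl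
      intro i _
      simp only [Fin.sum_univ_two, Pi.sub_apply, Pi.smul_apply, smul_eq_mul]
      have hJ0 : JJ (toR (η t)) (i, 0) = - (η t i).im := by simp [JJ]
      have hJ1 : JJ (toR (η t)) (i, 1) = (η t i).re := by simp [JJ]
      rw [hJ0, hJ1]
      ring
    rw [h3, h2, hav]
    ring
  have hosc := osc u w hud hwd
  set E : ℝ := 1 + (u 0 ^ 2 + w 0 ^ 2) with hE
  have hE0 : 0 ≤ E := by positivity
  have hub : ∀ t, |u t| ≤ E := by
    intro t
    have h1 := hosc t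
    have h2 : 0 ≤ (1 - |u t|) ^ 2 := sq_nonneg _
    have h3 := sq_abs (u t)
    nlinarith [sq_nonneg (w t), sq_nonneg (|u t|)]
  have hwb : ∀ t, |w t| ≤ E := by
    intro t
    have h1 := hosc t
    have h2 : 0 ≤ (1 - |w t|) ^ 2 := sq_nonneg _
    have h3 := sq_abs (w t)
    nlinarith [sq_nonneg (u t), sq_nonneg (|w t|)]
  set K : ℝ := 2 * C with hK
  have hK0 : 0 ≤ K := by positivity
  set S : ℝ := ∑ i, m9 i * ‖x9 i‖ with hS
  set I0 : ℝ := ∑ i, m9 i * ‖x9 i‖ ^ 2 with hI0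
  set X : ℝ := ∑ i, ‖x9 i‖ with hX
  have hX0 : 0 ≤ X := Finset.sum_nonneg fun i _ => norm_nonneg _
  have hxX : ∀ i, ‖x9 i‖ ≤ X := fun i =>
    Finset.single_le_sum (f := fun i => ‖x9 i‖) (fun i _ => norm_nonneg _) (Finset.mem_univ i)
  have hS0 : 0 ≤ S := Finset.sum_nonneg fun i _ => mul_nonneg (m9_pos i).le (norm_nonneg _)
  have hI0p : 0 < I0 := by
    apply Finset.sum_pos'
    · intro i _
      exact mul_nonneg (m9_pos i).le (by positivity)
    · refine ⟨1, Finset.mem_univ _, mul_pos (m9_pos 1) ?_⟩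
      have : x9 1 ≠ 0 := by
        intro h
        have := congrArg Complex.re h
        simp [x9, toC, xx, XQ] at this
      positivity
  set D : ℝ := (K * S + 3 * E) / I0 with hD
  have hD0 : 0 ≤ D := by positivity
  refine ⟨2 * K + D * X, fun t => ?_⟩
  obtain ⟨a, b, c, hc⟩ := hC t
  have hz := complex_of_real (ζ t) a (c 0) (c 1) C (fun p => (hc p).1)
  have he := complex_of_real (η t) b (c 2) (c 3) C (fun p => (hc p).2)
  obtain ⟨z1, z2⟩ := coeff_bound (ζ t) _ _ K (hcz t) hz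
  obtain ⟨e1, e2⟩ := coeff_bound (η t) _ _ K (hce t) he
  -- the coefficient of x in ζ
  have hc0 : |c 0| ≤ D := by
    have h1 := (Complex.abs_re_le_norm _).trans z2
    rw [Complex.sub_re, dot_re] at h1
    have h2 : ((⟨c 0, c 1⟩ : ℂ) * ((I0 : ℝ) : ℂ)).re = c 0 * I0 := by simp
    rw [h2] at h1
    have h3 : |c 0 * I0| ≤ K * S + E := by
      have h4 := abs_sub_abs_le_abs_sub (c 0 * I0) (u t)
      have h5 := hub t
      have h6 : |c 0 * I0 - u t| ≤ K * S := h1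
      linarith
    rw [abs_mul, abs_of_pos hI0p] at h3
    rw [hD, le_div_iff₀ hI0p]
    linarith
  have hcc : ‖(⟨c 2, c 3⟩ : ℂ)‖ ≤ D := by
    have h1 : ‖(∑ i, (m9 i : ℂ) * (starRingEnd ℂ (x9 i) * η t i))‖ ≤ 3 * E := by
      refine (Complex.norm_le_abs_re_add_abs_im _).trans ?_
      rw [dot_re, dot_im, hav, abs_neg, abs_mul, abs_two]
      have h5 := hub t
      have h6 := hwb t
      have h7 : |∑ i, ∑ k : Fin 2, m9 i * xx (i, k) * toR (η t) (i, k)| ≤ E := h6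
      linarith
    have h2 := norm_sub_norm_le ((⟨c 2, c 3⟩ : ℂ) * ((I0 : ℝ) : ℂ))
      (∑ i, (m9 i : ℂ) * (starRingEnd ℂ (x9 i) * η t i))
    have h3 : ‖(⟨c 2, c 3⟩ : ℂ) * ((I0 : ℝ) : ℂ)‖ = ‖(⟨c 2, c 3⟩ : ℂ)‖ * I0 := by
      rw [norm_mul, Complex.norm_real, Real.norm_of_nonneg hI0p.le]
    rw [hD, le_div_iff₀ hI0p, ← h3]
    linarith
  refine ⟨c 1, fun i => ⟨?_, ?_⟩⟩
  · have e : ζ t i - (c 1 : ℂ) * (I * x9 i)
        = (ζ t i - ((⟨a 0, a 1⟩ : ℂ) + (⟨c 0, c 1⟩ : ℂ) * x9 i)) + (⟨a 0, a 1⟩ : ℂ)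
          + (c 0 : ℂ) * x9 i := by
      have : (⟨c 0, c 1⟩ : ℂ) = (c 0 : ℂ) + (c 1 : ℂ) * I := by
        apply Complex.ext <;> simp
      rw [this]
      ring
    rw [e]
    refine (norm_add₃_le).trans ?_
    have h1 := hz i
    have h2 : ‖(c 0 : ℂ) * x9 i‖ ≤ D * X := by
      rw [norm_mul, Complex.norm_real, Real.norm_eq_abs]
      exact mul_le_mul hc0 (hxX i) (norm_nonneg _) hD0
    linarith
  · have e : η t i = (η t i - ((⟨b 0, b 1⟩ : ℂ) + (⟨c 2, c 3⟩ : ℂ) * x9 i)) + (⟨b 0, b 1⟩ : ℂ)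
          + (⟨c 2, c 3⟩ : ℂ) * x9 i := by ring
    rw [e]
    refine (norm_add₃_le).trans ?_
    have h1 := he i
    have h2 : ‖(⟨c 2, c 3⟩ : ℂ) * x9 i‖ ≤ D * X := by
      rw [norm_mul]
      exact mul_le_mul hcc (hxX i) (norm_nonneg _) hD0
    linarith

end Pool.Agent.H19.MoeckelB
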